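import Pool.Agent.Helper71.FreeThms

namespace Pool.Agent.Results.MP_5e1856_al.WeightedHomogeneous

open Pool.Agent.Helper71.FreeDefs

universe u v

/-- Give the variables positive integer weights. If the algebra fixed by a set `G` of
endomorphisms of `k⟨X⟩` contains the weighted homogeneous components of its elements, then it is
free. -/
theorem result {k : Type u} {X : Type v} [Field k] (w : X → ℕ) (hw : ∀ x, 0 < w x)
    (G : Set (FreeAlgebra k X →ₐ[k] FreeAlgebra k X))
    (hG : ∀ f ∈ fixedAlgebra G, ∀ n, component w n f ∈ fixedAlgebra G) :
    IsFree (fixedAlgebra G) :=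
  Pool.Agent.Helper71.FreeThms.homogeneous w hw G hG

end Pool.Agent.Results.MP_5e1856_al.WeightedHomogeneous
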